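import Pool.Agent.U485.SM.Stm2

/-! Project HT, package SEX (helper61): pairs of consecutive elements with difference 6 between
consecutive cubes. -/

set_option autoImplicit false

open Finset MeasureTheory ProbabilityTheory Filter Topology

namespace Pool.Agent.U61.HT

open Pool.Agent.U485.SM

/-- one more factor -/
theorem PP_succ (H : Finset ℕ) (y : ℕ) : PP H (y + 1) = PP H y *
    (if (y + 1).Prime then
      (1 - (res H (y + 1) : ℝ) / (y + 1 : ℕ)) * (1 - 1 / ((y + 1 : ℕ) : ℝ))⁻¹ ^ H.card else 1) := by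
  unfold PP Pr
  rw [Finset.prod_filter, Finset.prod_filter, Finset.prod_Icc_succ_top (by omega)]

theorem K2_succ {y : ℕ} (hy : 2 ≤ y) : K2 (y + 1) = K2 y *
    (if (y + 1).Prime then (1 - 1 / (((y + 1 : ℕ) : ℝ) - 1) ^ 2) else 1) := by
  unfold K2
  rw [Finset.prod_filter, Finset.prod_filter, Finset.prod_Icc_succ_top (by omega)]

theorem res_le (H : Finset ℕ) {p : ℕ} (hp : 0 < p) : res H p ≤ p := by
  unfold res
  calc (H.image (fun h => h % p)).card ≤ (Finset.range p).card := by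
        apply Finset.card_le_card
        intro a ha
        rw [Finset.mem_image] at ha
        obtain ⟨b, -, rfl⟩ := ha
        exact Finset.mem_range.mpr (Nat.mod_lt _ hp)
    _ = p := Finset.card_range p

theorem fac_nonneg (H : Finset ℕ) {p : ℕ} (hp : 0 < p) :
    0 ≤ (1 - (res H p : ℝ) / p) * (1 - 1 / (p : ℝ))⁻¹ ^ H.card := by
  have hp' : (0:ℝ) < p := by exact_mod_cast hp
  have h1 : (1:ℝ) ≤ p := by exact_mod_cast hp
  apply mul_nonneg
  · rw [sub_nonneg, div_le_one hp']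
    exact_mod_cast res_le H hp
  · apply pow_nonneg
    rw [inv_nonneg, sub_nonneg, div_le_one hp']
    exact h1

theorem fac_le_one {H : Finset ℕ} (hH : ∀ h ∈ H, h ≤ 6) {p : ℕ} (hp : 7 ≤ p) :
    (1 - (res H p : ℝ) / p) * (1 - 1 / (p : ℝ))⁻¹ ^ H.card ≤ 1 := by
  have hp' : (0:ℝ) < p := by
    have : (7:ℝ) ≤ p := by exact_mod_cast hp
    linarith
  have h7 : (7:ℝ) ≤ p := by exact_mod_cast hp
  have hres : res H p = H.card := by
    unfold res
    congr 1
    have : H.image (fun h => h % p) = H.image id := by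
      apply Finset.image_congr
      intro h hh
      exact Nat.mod_eq_of_lt (lt_of_le_of_lt (hH h hh) (by omega))
    rw [this, Finset.image_id]
  rw [hres]
  have ht : (1:ℝ) / p ≤ 1 / 7 := one_div_le_one_div_of_le (by norm_num) h7
  have ht0 : (0:ℝ) < 1 / p := by positivity
  have hb := one_add_mul_le_pow (a := -((1:ℝ) / p)) (by linarith) H.card
  have hq : 0 < (1 - (1:ℝ) / p) ^ H.card := pow_pos (by linarith) _
  rw [inv_pow, ← div_eq_mul_inv, div_le_one hq]
  calc 1 - (H.card : ℝ) / p = 1 + (H.card : ℝ) * -((1:ℝ) / p) := by ring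
    _ ≤ (1 + -((1:ℝ) / p)) ^ H.card := hb
    _ = (1 - (1:ℝ) / p) ^ H.card := by ring_nf

/-- the singular series of shifts of size at most 6 converges -/
theorem conv {H : Finset ℕ} (hH : ∀ h ∈ H, h ≤ 6) : ∃ c : ℝ, Tendsto (PP H) atTop (𝓝 c) := by
  have hPP0 : ∀ y, 0 ≤ PP H y := by
    intro y
    refine Finset.prod_nonneg fun p hp => fac_nonneg H ?_
    simp only [Pr, Finset.mem_filter, Finset.mem_Icc] at hp
    omega
  have hstep : ∀ y, PP H (y + 1 + 6) ≤ PP H (y + 6) := by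
    intro y
    rw [show y + 1 + 6 = (y + 6) + 1 by ring, PP_succ]
    refine mul_le_of_le_one_right (hPP0 _) ?_
    split_ifs with h
    · exact fac_le_one hH (by omega)
    · exact le_refl 1
  have hanti : Antitone (fun y => PP H (y + 6)) := antitone_nat_of_succ_le hstep
  have := tendsto_atTop_ciInf hanti ⟨0, by rintro _ ⟨y, rfl⟩; exact hPP0 _⟩
  exact ⟨_, (tendsto_add_atTop_iff_nat 6).mp this⟩

theorem PP06 {y : ℕ} (hy : 3 ≤ y) : PP {0, 6} y = 4 * K2 y := by
  induction y, hy using Nat.le_induction with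
  | base =>
    have e1 : (Finset.Icc 1 3).filter Nat.Prime = {2, 3} := by decide
    have e2 : (Finset.Icc 3 3).filter Nat.Prime = {3} := by decide
    have r2 : res {0, 6} 2 = 1 := by decide
    have r3 : res {0, 6} 3 = 1 := by decide
    unfold PP K2 Pr
    rw [e1, e2, Finset.prod_pair (by norm_num), Finset.prod_singleton, r2, r3]
    norm_num
  | succ y hy ih =>
    rw [PP_succ, K2_succ (by omega), ih, mul_assoc]
    congr 2
    split_ifs with hp
    · have hp5 : 5 ≤ y + 1 := by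
        by_contra hlt
        have : y + 1 = 4 := by omega
        rw [this] at hp
        exact absurd hp (by norm_num)
      have hres : res {0, 6} (y + 1) = 2 := by
        unfold res
        rw [Finset.image_insert, Finset.image_singleton, Nat.zero_mod]
        apply Finset.card_pair
        intro h0
        have h6 : (y + 1) ∣ 6 := Nat.dvd_of_mod_eq_zero h0.symm
        have hle := Nat.le_of_dvd (by norm_num) h6
        have h56 : y + 1 = 5 ∨ y + 1 = 6 := by omega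
        rcases h56 with h | h
        · rw [h] at h6
          omega
        · rw [h] at hp
          exact absurd hp (by norm_num)
      rw [hres]
      have hc : ({0, 6} : Finset ℕ).card = 2 := by decide
      rw [hc]
      have h5 : (5:ℝ) ≤ ((y + 1 : ℕ) : ℝ) := by exact_mod_cast hp5
      have ha : ((y + 1 : ℕ) : ℝ) ≠ 0 := by positivity
      have hb : ((y + 1 : ℕ) : ℝ) - 1 ≠ 0 := by linarith
      generalize ((y + 1 : ℕ) : ℝ) = P at *
      have hd : 1 - 1 / P = (P - 1) / P := by field_simp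
      rw [hd, inv_div]
      field_simp
      push_cast
      ring
    · rfl

/-- length of the window -/
def hh (n : ℕ) : ℕ := 3 * n ^ 2 + 3 * n - 6

theorem hh_cast {n : ℕ} (hn : 1 ≤ n) : (hh n : ℝ) = 3 * (n:ℝ) ^ 2 + 3 * n - 6 := by
  unfold hh
  rw [Nat.cast_sub (by nlinarith)]
  push_cast
  ring

theorem win {Q : Set ℕ} (hQ : LawH Q) {H : Finset ℕ} {c : ℝ} (hc : Tendsto (PP H) atTop (𝓝 c)) :
    Tendsto (fun n : ℕ => (num Q H (n ^ 3) (n ^ 3 + hh n) : ℝ) *
      (Real.log ((n ^ 3 : ℕ) : ℝ)) ^ H.card / hh n) atTop (𝓝 c) := by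
  rw [Metric.tendsto_nhds]
  intro ε hε
  have h1 := (tendsto_pow_atTop (α := ℕ) (three_ne_zero)).eventually
    (hQ H c hc (ε / 2) (1 / 2) (by positivity) (by norm_num))
  filter_upwards [h1, eventually_ge_atTop 4] with n g1 hn
  have hhn : n ^ 2 ≤ hh n := by
    unfold hh
    have : n ^ 2 + 6 ≤ 3 * n ^ 2 + 3 * n := by nlinarith
    omega
  have hpos : 0 < hh n := lt_of_lt_of_le (by positivity) hhn
  have hpos' : (0:ℝ) < hh n := by exact_mod_cast hpos
  have k1 : ((n ^ 3 : ℕ) : ℝ) ^ (1 / 2 : ℝ) ≤ (hh n : ℝ) := by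
    rw [← Real.sqrt_eq_rpow, Real.sqrt_le_iff]
    refine ⟨hpos'.le, ?_⟩
    have : n ^ 3 ≤ (hh n) ^ 2 := by
      calc n ^ 3 ≤ n ^ 4 := Nat.pow_le_pow_right (by omega) (by norm_num)
        _ = (n ^ 2) ^ 2 := by ring
        _ ≤ (hh n) ^ 2 := Nat.pow_le_pow_left hhn 2
    exact_mod_cast this
  have k2 : hh n ≤ n ^ 3 := by
    unfold hh
    have : 3 * n ^ 2 + 3 * n ≤ n ^ 3 + 6 := by nlinarith [sq_nonneg (n : ℤ)]
    omega
  have g2 := g1 (hh n) k1 k2
  rw [Real.dist_eq]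
  have e : (num Q H (n ^ 3) (n ^ 3 + hh n) : ℝ) * (Real.log ((n ^ 3 : ℕ) : ℝ)) ^ H.card / hh n - c =
      ((num Q H (n ^ 3) (n ^ 3 + hh n) : ℝ) * (Real.log ((n ^ 3 : ℕ) : ℝ)) ^ H.card - c * hh n) /
        hh n := by
    field_simp
  rw [e, abs_div, abs_of_pos hpos', div_lt_iff₀ hpos']
  calc _ ≤ ε / 2 * hh n := g2
    _ < ε * hh n := by
      apply mul_lt_mul_of_pos_right _ hpos'
      linarith

theorem hh_div : Tendsto (fun n : ℕ => (hh n : ℝ) / (n:ℝ) ^ 2) atTop (𝓝 3) := by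
  have h1 : Tendsto (fun n : ℕ => (3:ℝ) + 3 * (1 / (n:ℝ)) - 6 * (1 / (n:ℝ)) ^ 2) atTop
      (𝓝 (3 + 3 * 0 - 6 * 0 ^ 2)) := by
    have h0 : Tendsto (fun n : ℕ => 1 / (n:ℝ)) atTop (𝓝 0) := tendsto_one_div_atTop_nhds_zero_nat
    exact ((tendsto_const_nhds.add (h0.const_mul 3)).sub ((h0.pow 2).const_mul 6))
  have h2 : (3:ℝ) + 3 * 0 - 6 * 0 ^ 2 = 3 := by norm_num
  rw [h2] at h1
  refine h1.congr' ?_
  filter_upwards [eventually_ge_atTop 1] with n hn
  rw [hh_cast hn]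
  have : (n:ℝ) ≠ 0 := by positivity
  field_simp

/-- **SEX** -/
theorem t_SEX : S_SEX := by
  intro Q hQ C hC
  -- the main term
  have hPP : Tendsto (PP {0, 6}) atTop (𝓝 (4 * C)) := by
    refine (hC.const_mul 4).congr' ?_
    filter_upwards [eventually_ge_atTop 3] with y hy
    rw [PP06 hy]
  have hA0 := win hQ hPP
  have hA : Tendsto (fun n : ℕ => (num Q {0, 6} (n ^ 3) (n ^ 3 + hh n) : ℝ) *
      (Real.log n) ^ 2 / (n:ℝ) ^ 2) atTop (𝓝 (4 * C / 3)) := by
    have h1 := (hA0.mul hh_div).div_const 9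
    have e : 4 * C * 3 / 9 = 4 * C / 3 := by ring
    rw [e] at h1
    refine h1.congr' ?_
    filter_upwards [eventually_ge_atTop 4] with n hn
    have hpos : (hh n : ℝ) ≠ 0 := by
      rw [hh_cast (by omega)]
      have : (4:ℝ) ≤ n := by exact_mod_cast hn
      nlinarith
    have hn0 : (n:ℝ) ≠ 0 := by positivity
    have hc : ({0, 6} : Finset ℕ).card = 2 := by decide
    rw [hc]
    push_cast
    rw [Real.log_pow]
    field_simp
    push_cast
    ring
  -- the error terms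
  have hB : ∀ j : ℕ, 0 < j → j < 6 → Tendsto (fun n : ℕ =>
      (num Q {0, j, 6} (n ^ 3) (n ^ 3 + hh n) : ℝ) * (Real.log n) ^ 2 / (n:ℝ) ^ 2) atTop (𝓝 0) := by
    intro j hj0 hj6
    obtain ⟨c, hc⟩ := conv (H := {0, j, 6}) (by
      intro h hh
      simp only [Finset.mem_insert, Finset.mem_singleton] at hh
      omega)
    have h1 := ((win hQ hc).mul hh_div).div_const 27
    have hlog : Tendsto (fun n : ℕ => (Real.log n)⁻¹) atTop (𝓝 0) :=
      tendsto_inv_atTop_zero.comp (Real.tendsto_log_atTop.comp tendsto_natCast_atTop_atTop)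
    have h2 := h1.mul hlog
    rw [mul_zero] at h2
    refine h2.congr' ?_
    filter_upwards [eventually_ge_atTop 4] with n hn
    have hpos : (hh n : ℝ) ≠ 0 := by
      rw [hh_cast (by omega)]
      have : (4:ℝ) ≤ n := by exact_mod_cast hn
      nlinarith
    have hn0 : (n:ℝ) ≠ 0 := by positivity
    have hl0 : Real.log n ≠ 0 := by
      apply ne_of_gt
      apply Real.log_pos
      exact_mod_cast (by omega : 1 < n)
    have hc : ({0, j, 6} : Finset ℕ).card = 3 := by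
      rw [Finset.card_insert_of_notMem, Finset.card_insert_of_notMem, Finset.card_singleton]
      · rw [Finset.mem_singleton]; omega
      · simp only [Finset.mem_insert, Finset.mem_singleton]; omega
    rw [hc]
    push_cast
    rw [Real.log_pow]
    field_simp
    push_cast
    ring
  -- the error sum
  have hE : Tendsto (fun n : ℕ =>
      (num Q {0, 6} (n ^ 3) (n ^ 3 + hh n) : ℝ) * (Real.log n) ^ 2 / (n:ℝ) ^ 2 -
      ((num Q {0, 1, 6} (n ^ 3) (n ^ 3 + hh n) : ℝ) * (Real.log n) ^ 2 / (n:ℝ) ^ 2 +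
      ((num Q {0, 2, 6} (n ^ 3) (n ^ 3 + hh n) : ℝ) * (Real.log n) ^ 2 / (n:ℝ) ^ 2 +
      ((num Q {0, 3, 6} (n ^ 3) (n ^ 3 + hh n) : ℝ) * (Real.log n) ^ 2 / (n:ℝ) ^ 2 +
      ((num Q {0, 4, 6} (n ^ 3) (n ^ 3 + hh n) : ℝ) * (Real.log n) ^ 2 / (n:ℝ) ^ 2 +
      (num Q {0, 5, 6} (n ^ 3) (n ^ 3 + hh n) : ℝ) * (Real.log n) ^ 2 / (n:ℝ) ^ 2))))) atTop
      (𝓝 (4 * C / 3)) := by
    have := hA.sub ((hB 1 (by norm_num) (by norm_num)).add ((hB 2 (by norm_num) (by norm_num)).add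
      ((hB 3 (by norm_num) (by norm_num)).add ((hB 4 (by norm_num) (by norm_num)).add
      (hB 5 (by norm_num) (by norm_num))))))
    simpa using this
  -- the counting inequalities
  have hfin : ∀ (P : ℕ → Prop) (a b : ℕ), {p : ℕ | a < p ∧ p ≤ b ∧ P p}.Finite := fun P a b =>
    (Set.finite_Icc a b).subset fun p hp => ⟨hp.1.le, hp.2.1⟩
  have hwin : ∀ n : ℕ, 1 ≤ n → n ^ 3 + hh n + 7 = (n + 1) ^ 3 := by
    intro n hn
    unfold hh
    have h6 : 6 ≤ 3 * n ^ 2 + 3 * n := by nlinarith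
    have e : (n + 1) ^ 3 = n ^ 3 + (3 * n ^ 2 + 3 * n) + 1 := by ring
    rw [e]
    omega
  refine tendsto_of_tendsto_of_tendsto_of_le_of_le' hE hA ?_ ?_
  · filter_upwards [eventually_ge_atTop 1] with n hn
    have hw := hwin n hn
    have hcard : num Q {0, 6} (n ^ 3) (n ^ 3 + hh n) ≤
        {p : ℕ | n ^ 3 < p ∧ p + 6 < (n + 1) ^ 3 ∧ p ∈ Q ∧ p + 6 ∈ Q ∧
          ∀ j : ℕ, 0 < j → j < 6 → p + j ∉ Q}.ncard +
        (num Q {0, 1, 6} (n ^ 3) (n ^ 3 + hh n) + (num Q {0, 2, 6} (n ^ 3) (n ^ 3 + hh n) +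
        (num Q {0, 3, 6} (n ^ 3) (n ^ 3 + hh n) + (num Q {0, 4, 6} (n ^ 3) (n ^ 3 + hh n) +
        num Q {0, 5, 6} (n ^ 3) (n ^ 3 + hh n))))) := by
      unfold num
      refine le_trans (Set.ncard_le_ncard (t := {p : ℕ | n ^ 3 < p ∧ p + 6 < (n + 1) ^ 3 ∧ p ∈ Q ∧
          p + 6 ∈ Q ∧ ∀ j : ℕ, 0 < j → j < 6 → p + j ∉ Q} ∪
        ({p : ℕ | n ^ 3 < p ∧ p ≤ n ^ 3 + hh n ∧ ∀ h ∈ ({0, 1, 6} : Finset ℕ), p + h ∈ Q} ∪
        ({p : ℕ | n ^ 3 < p ∧ p ≤ n ^ 3 + hh n ∧ ∀ h ∈ ({0, 2, 6} : Finset ℕ), p + h ∈ Q} ∪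
        ({p : ℕ | n ^ 3 < p ∧ p ≤ n ^ 3 + hh n ∧ ∀ h ∈ ({0, 3, 6} : Finset ℕ), p + h ∈ Q} ∪
        ({p : ℕ | n ^ 3 < p ∧ p ≤ n ^ 3 + hh n ∧ ∀ h ∈ ({0, 4, 6} : Finset ℕ), p + h ∈ Q} ∪
        {p : ℕ | n ^ 3 < p ∧ p ≤ n ^ 3 + hh n ∧ ∀ h ∈ ({0, 5, 6} : Finset ℕ), p + h ∈ Q})))))
        ?_ ?_) ?_
      · rintro p ⟨h1, h2, h3⟩
        have q0 : p ∈ Q := by simpa using h3 0 (by simp)
        have q6 : p + 6 ∈ Q := h3 6 (by simp)
        by_cases hj : ∀ j : ℕ, 0 < j → j < 6 → p + j ∉ Q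
        · left
          exact ⟨h1, by omega, q0, q6, hj⟩
        · right
          push Not at hj
          obtain ⟨j, hj0, hj6, hjQ⟩ := hj
          have key : ∀ i, i = j → p ∈ {p : ℕ | n ^ 3 < p ∧ p ≤ n ^ 3 + hh n ∧
              ∀ h ∈ ({0, i, 6} : Finset ℕ), p + h ∈ Q} := by
            rintro i rfl
            refine ⟨h1, h2, ?_⟩
            intro h hh'
            simp only [Finset.mem_insert, Finset.mem_singleton] at hh'
            rcases hh' with rfl | rfl | rfl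
            · simpa using q0
            · exact hjQ
            · exact q6
          have hcase : j = 1 ∨ j = 2 ∨ j = 3 ∨ j = 4 ∨ j = 5 := by omega
          rcases hcase with h | h | h | h | h
          · exact Or.inl (key 1 h.symm)
          · exact Or.inr (Or.inl (key 2 h.symm))
          · exact Or.inr (Or.inr (Or.inl (key 3 h.symm)))
          · exact Or.inr (Or.inr (Or.inr (Or.inl (key 4 h.symm))))
          · exact Or.inr (Or.inr (Or.inr (Or.inr (key 5 h.symm))))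
      · refine ((Set.finite_Icc (n ^ 3) ((n + 1) ^ 3)).subset fun p hp => ⟨hp.1.le, by
          have := hp.2.1
          omega⟩).union ((hfin _ _ _).union ((hfin _ _ _).union ((hfin _ _ _).union
          ((hfin _ _ _).union (hfin _ _ _)))))
      · refine (Set.ncard_union_le _ _).trans (add_le_add_right ?_ _)
        refine (Set.ncard_union_le _ _).trans (add_le_add_right ?_ _)
        refine (Set.ncard_union_le _ _).trans (add_le_add_right ?_ _)
        refine (Set.ncard_union_le _ _).trans (add_le_add_right ?_ _)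
        exact Set.ncard_union_le _ _
    have hcard' : (num Q {0, 6} (n ^ 3) (n ^ 3 + hh n) : ℝ) ≤
        ({p : ℕ | n ^ 3 < p ∧ p + 6 < (n + 1) ^ 3 ∧ p ∈ Q ∧ p + 6 ∈ Q ∧
          ∀ j : ℕ, 0 < j → j < 6 → p + j ∉ Q}.ncard : ℝ) +
        ((num Q {0, 1, 6} (n ^ 3) (n ^ 3 + hh n) : ℝ) + ((num Q {0, 2, 6} (n ^ 3) (n ^ 3 + hh n) : ℝ) +
        ((num Q {0, 3, 6} (n ^ 3) (n ^ 3 + hh n) : ℝ) + ((num Q {0, 4, 6} (n ^ 3) (n ^ 3 + hh n) : ℝ) +
        (num Q {0, 5, 6} (n ^ 3) (n ^ 3 + hh n) : ℝ))))) := by exact_mod_cast hcard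
    rw [← add_div, ← add_div, ← add_div, ← add_div, ← sub_div, ← add_mul, ← add_mul, ← add_mul,
      ← add_mul, ← sub_mul]
    apply div_le_div_of_nonneg_right _ (by positivity)
    apply mul_le_mul_of_nonneg_right _ (by positivity)
    linarith
  · filter_upwards [eventually_ge_atTop 1] with n hn
    have hw := hwin n hn
    apply div_le_div_of_nonneg_right _ (by positivity)
    apply mul_le_mul_of_nonneg_right _ (by positivity)
    have : {p : ℕ | n ^ 3 < p ∧ p + 6 < (n + 1) ^ 3 ∧ p ∈ Q ∧ p + 6 ∈ Q ∧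
        ∀ j : ℕ, 0 < j → j < 6 → p + j ∉ Q}.ncard ≤ num Q {0, 6} (n ^ 3) (n ^ 3 + hh n) := by
      unfold num
      apply Set.ncard_le_ncard _ (hfin _ _ _)
      rintro p ⟨h1, h2, h3, h4, -⟩
      refine ⟨h1, by omega, ?_⟩
      intro h hh'
      simp only [Finset.mem_insert, Finset.mem_singleton] at hh'
      rcases hh' with rfl | rfl
      · simpa using h3
      · exact h4
    exact_mod_cast this

end Pool.Agent.U61.HT
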